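import Pool.Agent.Helper99.FC.Defs

/-!
# Translation invariance of the expectations in a box with all directions periodic
-/

set_option autoImplicit false

open MeasureTheory

noncomputable section

namespace Pool.Agent.Helper94.TM

open Pool.Agent.Helper99.FC

variable {D : Type} [Fintype D] [LinearOrder D] {Γ : Type*} [Group Γ]

/-- The translation of the edges of the torus. -/
def shf {n : D → ℕ} (y : BV n) : BE n ≃ BE n :=
  (Equiv.addRight y).prodCongr (Equiv.refl D)

omit [Fintype D] in
theorem bpq_shf {n : D → ℕ} (y : BV n) (V : BE n → Γ) (x : BV n) (i j : D) :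
    bpq (fun e => V (shf y e)) x i j = bpq V (x + y) i j := by
  have h1 : ∀ i : D, x + bs n i + y = x + y + bs n i := fun i => by
    rw [add_assoc, add_comm (bs n i) y, ← add_assoc]
  simp only [bpq, shf, Equiv.prodCongr_apply, Prod.map, Equiv.coe_addRight, Equiv.coe_refl, id, h1]

theorem bact_shf {n : D → ℕ} (φ : Γ → ℝ) (y : BV n) (V : BE n → Γ) :
    bact φ (fun _ _ => false) (fun e => V (shf y e)) = bact φ (fun _ _ => false) V := by
  unfold bact
  simp only [bpq_shf]
  exact Equiv.sum_comp (Equiv.addRight y) (fun x : BV n =>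
    ∑ p ∈ (Finset.univ : Finset (D × D)).filter (fun p => p.1 < p.2),
      if (false || false) = true then (0 : ℝ) else φ (bpq V x p.1 p.2))

omit [Fintype D] [LinearOrder D] [Group Γ] in
theorem per_shf {n : D → ℕ} (x : D → ℤ) (V : BE n → Γ) :
    (fun e : (D → ℤ) × D => per V (fun j => e.1 j + x j, e.2)) =
      per (fun e => V (shf (fun k => ((x k : ℤ) : ZMod (n k + 1))) e)) := by
  funext e
  simp only [per, shf, Equiv.prodCongr_apply, Prod.map, Equiv.coe_addRight, Equiv.coe_refl, id]
  congr 2
  funext k
  simp

variable [MeasurableSpace Γ] (σ : Measure Γ) [IsProbabilityMeasure σ]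

omit [Group Γ] in
theorem integral_shf {n : D → ℕ} (y : BV n) (F : (BE n → Γ) → ℂ) :
    ∫ V, F (fun e => V (shf y e)) ∂(Measure.pi fun _ : BE n => σ) =
      ∫ V, F V ∂(Measure.pi fun _ : BE n => σ) := by
  have hmp := measurePreserving_piCongrLeft (fun _ : BE n => σ) (shf y).symm
  refine Eq.trans ?_ (hmp.integral_comp' F)
  refine integral_congr_ae (Filter.Eventually.of_forall fun V => ?_)
  refine congrArg F ?_
  funext e
  have := MeasurableEquiv.piCongrLeft_apply_apply (β := fun _ : BE n => Γ) (shf y).symm V (shf y e)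
  simpa using this.symm

theorem ee_shift {φ : Γ → ℝ} (q : D → ℕ) (x : D → ℤ) (f : ((D → ℤ) × D → Γ) → ℂ) :
    ee σ φ (fun _ => false) q (fun U => f (fun e => U (fun j => e.1 j + x j, e.2))) =
      ee σ φ (fun _ => false) q f := by
  have hct : ctt (fun _ : D => false) q = fun _ _ => false := by
    funext k a
    simp [ctt]
  unfold ee
  congr 1
  rw [hct]
  simp only [per_shf]
  rw [← integral_shf σ (fun k => ((x k : ℤ) : ZMod (nn (fun _ : D => false) q k + 1)))
    (fun V => f (per V) * (Real.exp (bact φ (fun _ _ => false) V) : ℂ))]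
  refine integral_congr_ae (Filter.Eventually.of_forall fun V => ?_)
  simp only [bact_shf]

end Pool.Agent.Helper94.TM
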